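import Pool.Agent.V1134.ChainsMain

namespace Pool.Agent.Results.MP_3e56e8_al.ChainCongruence

open Pool.Agent.V1134.Chains

/-- The number `N(s - I)` of chains of `p`-subgroups of `G` with orders `p ^ (s - c)`, `c ∈ I`:
families of subgroups `U c`, `c ∈ I`, with `|U c| = p ^ (s - c)` and `U d ≤ U c` for `c ≤ d`. -/
noncomputable def chainCount (G : Type*) [Group G] (p s : ℕ) (I : Finset ℕ) : ℕ :=
  Nat.card {U : I → Subgroup G // (∀ c : I, Nat.card (U c) = p ^ (s - (c : ℕ))) ∧
    ∀ c d : I, (c : ℕ) ≤ d → U d ≤ U c}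

/-- The alternating sum `S_J(G)` over the nonempty subsets `I` of `J`. -/
noncomputable def S (G : Type*) [Group G] (p s : ℕ) (J : Finset ℕ) : ℤ :=
  ∑ I ∈ J.powerset.erase ∅, (-1) ^ (I.card + 1) * (chainCount G p s I : ℤ)

theorem chainCount_eq (G : Type*) [Group G] (p s : ℕ) (I : Finset ℕ) (hI : ∀ c ∈ I, c ≤ s) :
    chainCount G p s I = M p (I.image (fun c => s - c)) (⊤ : Subgroup G) := by
  have hinj : Function.Injective (fun c : I => (⟨s - (c : ℕ),
      Finset.mem_image_of_mem (fun c => s - c) c.2⟩ : ↥(I.image (fun c => s - c)))) := by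
    intro c d h
    have h1 : s - (c : ℕ) = s - (d : ℕ) := congrArg Subtype.val h
    have h2 := hI c c.2
    have h3 := hI d d.2
    exact Subtype.ext (by omega)
  have hsurj : Function.Surjective (fun c : I => (⟨s - (c : ℕ),
      Finset.mem_image_of_mem (fun c => s - c) c.2⟩ : ↥(I.image (fun c => s - c)))) := by
    rintro ⟨b, hb⟩
    obtain ⟨c, hc, hcb⟩ := Finset.mem_image.1 hb
    exact ⟨⟨c, hc⟩, Subtype.ext hcb⟩
  let e := Equiv.ofBijective _ ⟨hinj, hsurj⟩
  have he : ∀ c : I, ((e c : ↥(I.image (fun c => s - c))) : ℕ) = s - (c : ℕ) := fun c => rfl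
  have he' : ∀ b : ↥(I.image (fun c => s - c)), (b : ℕ) = s - (e.symm b : ℕ) := by
    intro b
    have := he (e.symm b)
    rw [Equiv.apply_symm_apply] at this
    exact this
  unfold chainCount M
  refine Nat.card_congr (Equiv.subtypeEquiv (Equiv.arrowCongr e (Equiv.refl _)) ?_)
  intro U
  constructor
  · rintro ⟨h1, h2⟩
    refine ⟨?_, ?_, fun _ => le_top⟩
    · intro b
      show Nat.card (U (e.symm b)) = p ^ (b : ℕ)
      rw [h1, ← he']
    · intro b c hbc
      show U (e.symm b) ≤ U (e.symm c)
      apply h2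
      have h3 : (b : ℕ) ≤ c := hbc
      rw [he' b, he' c] at h3
      have h4 := hI _ (e.symm b).2
      have h5 := hI _ (e.symm c).2
      omega
  · rintro ⟨h1, h2, -⟩
    refine ⟨?_, ?_⟩
    · intro c
      have h3 : Nat.card (U (e.symm (e c))) = p ^ ((e c : ↥(I.image (fun c => s - c))) : ℕ) :=
        h1 (e c)
      rw [Equiv.symm_apply_apply, he] at h3
      exact h3
    · intro c d hcd
      have h3 : U (e.symm (e d)) ≤ U (e.symm (e c)) := h2 (e d) (e c) (by
        show ((e d : ↥(I.image (fun c => s - c))) : ℕ) ≤ ((e c : ↥(I.image (fun c => s - c))) : ℕ)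
        rw [he, he]
        omega)
      rwa [Equiv.symm_apply_apply, Equiv.symm_apply_apply] at h3

/-- The alternating chain-count congruence holds for every nonempty index set. -/
theorem result (G : Type*) [Group G] [Finite G] (p : ℕ) (hp : p.Prime) (t n : ℕ)
    (hG : Nat.card G = p ^ t * n) (hn : ¬ p ∣ n) (s : ℕ) (hs : s ≤ t) (J : Finset ℕ)
    (hJ : J.Nonempty) (hJs : ∀ c ∈ J, c ≤ s) :
    S G p s J ≡ 1 [ZMOD (p : ℤ) ^ J.card] := by
  classical
  set f : ℕ → ℕ := fun c => s - c with hf
  have hfinj : Set.InjOn f (J : Set ℕ) := by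
    intro c hc d hd h
    have h2 := hJs c hc
    have h3 := hJs d hd
    have h1 : s - c = s - d := h
    omega
  have h1 := main hp (Nat.card (⊤ : Subgroup G)) (⊤ : Subgroup G) rfl (J.image f)
  have h2 : (J.image f).filter (fun b => p ^ b ∣ Nat.card (⊤ : Subgroup G)) = J.image f := by
    rw [Finset.filter_eq_self]
    intro b hb
    obtain ⟨c, hc, rfl⟩ := Finset.mem_image.1 hb
    rw [Subgroup.card_top, hG]
    refine Dvd.dvd.mul_right (pow_dvd_pow _ ?_) _
    show s - c ≤ t
    omega
  rw [h2, Finset.card_image_of_injOn hfinj] at h1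
  have h3 : g p (J.image f) (⊤ : Subgroup G) =
      ∑ I ∈ J.powerset, (-1) ^ I.card * (chainCount G p s I : ℤ) := by
    unfold g
    rw [Finset.powerset_image, Finset.sum_image]
    · apply Finset.sum_congr rfl
      intro I hI
      rw [Finset.mem_powerset] at hI
      rw [Finset.card_image_of_injOn (hfinj.mono (by exact_mod_cast hI)),
        chainCount_eq G p s I (fun c hc => hJs c (hI hc))]
    · intro I hI I' hI' h
      have hI2 : I ⊆ J := Finset.mem_powerset.1 hI
      have hI3 : I' ⊆ J := Finset.mem_powerset.1 hI'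
      have h' : I.image f = I'.image f := h
      ext c
      constructor
      · intro hc
        have h4 : f c ∈ I'.image f := by
          rw [← h']
          exact Finset.mem_image_of_mem f hc
        obtain ⟨d, hd, hdc⟩ := Finset.mem_image.1 h4
        have := hfinj (hI3 hd) (hI2 hc) hdc
        rwa [← this]
      · intro hc
        have h4 : f c ∈ I.image f := by
          rw [h']
          exact Finset.mem_image_of_mem f hc
        obtain ⟨d, hd, hdc⟩ := Finset.mem_image.1 h4
        have := hfinj (hI2 hd) (hI3 hc) hdc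
        rwa [← this]
  have h4 : chainCount G p s ∅ = 1 := by
    rw [chainCount_eq G p s ∅ (by simp), Finset.image_empty, M_empty]
  have h5 : (∑ I ∈ J.powerset, (-1) ^ I.card * (chainCount G p s I : ℤ)) = 1 - S G p s J := by
    rw [← Finset.add_sum_erase J.powerset _ (Finset.empty_mem_powerset J)]
    unfold S
    rw [h4, Finset.card_empty, pow_zero, one_mul, Nat.cast_one, sub_eq_add_neg,
      ← Finset.sum_neg_distrib]
    congr 1
    apply Finset.sum_congr rfl
    intro I _
    ring
  rw [h3, h5] at h1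
  exact Int.modEq_iff_dvd.2 h1

end Pool.Agent.Results.MP_3e56e8_al.ChainCongruence
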